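import Pool.Agent.Y507.Coi.Stm
import Pool.Agent.Y761.Coi.IsoB
import Pool.Agent.Y888.Coi.IsoP
import Pool.Agent.Y210.Coi.IsoI
import Pool.Agent.Y929.Coi.Sca
import Pool.Agent.Y38.Coi.Vqp
import Pool.Agent.Y693.Coi.Vqi
import Pool.Agent.Y689.Coi.Vpp
import Pool.Agent.Y217.Coi.Vpi

/-!
# Convex bodies violating the Viterbo type bound in all dimensions `2n ≥ 6`

For every `n ≥ 1` let `D = Q × P ⊆ ℝ²ⁿ`, where `Q` in the `q`-space is the `ℓ₁`-sum of `⌊(n-1)/2⌋`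
pentagons `K` and of intervals, and `P` in the `p`-space is the product of as many pentagons `T`
(the suitably rotated and scaled `K`) and of intervals. Then `c_LR(D) ≥ √5`, while
`n! Vol(D⁺) ≤ (5 / (3 + √5)) ^ ⌊(n-1)/2⌋ (√5) ^ n`.
-/

set_option autoImplicit false

open Set MeasureTheory
open scoped Matrix ENNReal

namespace Pool.Agent.Results.MP_4c83b4_gt.AllDimensions

open Pool.Agent.W560.Coiso Pool.Agent.Y507.Coi

/-- what the induction carries -/
def Good (k : ℕ) (a b : ℝ) : Prop :=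
  ∃ (I J : Type) (_ : Fintype I) (_ : Fintype J) (_ : Nonempty I) (κ : I → Fin (k + 1) → ℝ)
    (τ : J → Fin (k + 1) → ℝ), Iso κ τ (1 + 2 * psi) ∧ Bornology.IsBounded (QS κ 1) ∧
    Bornology.IsBounded (QS τ 1) ∧
    ENNReal.ofReal ((k + 1).factorial : ℝ) * volume (QS κ 1) ≤ ENNReal.ofReal a ∧
    volume (PS τ) ≤ ENNReal.ofReal b

lemma psi_pos : 0 < psi := by linarith [psi_gt]

lemma good_zero (hISOB : S_ISOB) : Good 0 2 ((1 + 2 * psi) / 2) := by
  have hp := psi_pos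
  have h1 : QS kb 1 ⊆ Icc (fun _ : Fin 1 => (-1 : ℝ)) (fun _ => 1) := by
    intro q hq
    have e1 := hq true
    have e2 := hq false
    simp [kb, dotProduct] at e1 e2
    refine ⟨fun i => ?_, fun i => ?_⟩ <;> fin_cases i <;> simp <;> linarith
  have h2 : QS tb 1 ⊆ Icc (fun _ : Fin 1 => -((1 + 2 * psi) / 2)) (fun _ => (1 + 2 * psi) / 2) := by
    intro q hq
    have e1 := hq true
    have e2 := hq false
    simp [tb, dotProduct] at e1 e2
    have h3 : 0 < 1 + 2 * psi := by linarith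
    rw [div_mul_eq_mul_div, div_le_iff₀ h3] at e1
    have e3 : -(2 * q 0) ≤ 1 + 2 * psi := by
      have : -(2 / (1 + 2 * psi) * q 0) = -(2 * q 0) / (1 + 2 * psi) := by ring
      rw [this, div_le_iff₀ h3] at e2
      linarith
    refine ⟨fun i => ?_, fun i => ?_⟩ <;> fin_cases i <;> simp <;> linarith
  refine ⟨Bool, Bool, inferInstance, inferInstance, inferInstance, kb, tb, hISOB,
    (Metric.isBounded_Icc _ _).subset h1, (Metric.isBounded_Icc _ _).subset h2, ?_, ?_⟩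
  · refine (mul_le_mul' le_rfl (measure_mono h1)).trans ?_
    rw [Real.volume_Icc_pi]
    simp
    norm_num
  · have h3 : PS tb ⊆ Icc (fun _ : Fin 1 => (0 : ℝ)) (fun _ => (1 + 2 * psi) / 2) := by
      intro p hp
      have := (h2 hp.1).2 0
      have h0 := hp.2
      refine ⟨fun i => ?_, fun i => ?_⟩ <;> fin_cases i
      · simpa using h0
      · exact this
    refine (measure_mono h3).trans ?_
    rw [Real.volume_Icc_pi]
    simp

lemma good_pent (hISOP : S_ISOP) (hSCA : S_SCA) (hVQP : S_VQP) (hVPP : S_VPP) {k : ℕ} {a b : ℝ}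
    (h : Good k a b) : Good (k + 2) (5 * a) (5 / 2 * psi ^ 2 * b) := by
  obtain ⟨I, J, hI, hJ, hI0, κ, τ, iso, b1, b2, v1, v2⟩ := h
  obtain ⟨c1, w1⟩ := hVQP hSCA k I κ b1
  obtain ⟨c2, w2⟩ := hVPP k J τ b2
  refine ⟨Fin 5 × I, Fin 5 ⊕ J, inferInstance, inferInstance, inferInstance, kp κ, tp τ,
    hISOP k I J κ τ iso, c1, c2, ?_, ?_⟩
  · have e : ((k + 2 + 1).factorial : ℝ) = ((k + 1).factorial : ℝ) * (((k : ℝ) + 2) * (k + 3)) := by
      rw [show k + 2 + 1 = (k + 2) + 1 from rfl, Nat.factorial_succ, Nat.factorial_succ (k + 1)]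
      push_cast
      ring
    rw [e, ENNReal.ofReal_mul (by positivity), mul_assoc]
    calc _ ≤ ENNReal.ofReal ((k + 1).factorial : ℝ) * (ENNReal.ofReal 5 * volume (QS κ 1)) :=
          mul_le_mul' le_rfl w1
      _ = ENNReal.ofReal 5 * (ENNReal.ofReal ((k + 1).factorial : ℝ) * volume (QS κ 1)) := by ring
      _ ≤ ENNReal.ofReal 5 * ENNReal.ofReal a := mul_le_mul' le_rfl v1
      _ = ENNReal.ofReal (5 * a) := by rw [← ENNReal.ofReal_mul (by norm_num)]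
  · refine w2.trans ((mul_le_mul' le_rfl v2).trans ?_)
    rw [← ENNReal.ofReal_mul (by positivity)]

lemma good_int (hISOI : S_ISOI) (hSCA : S_SCA) (hVQI : S_VQI) (hVPI : S_VPI) {k : ℕ} {a b : ℝ}
    (h : Good k a b) : Good (k + 1) (2 * a) ((1 + 2 * psi) / 2 * b) := by
  have hp := psi_pos
  obtain ⟨I, J, hI, hJ, hI0, κ, τ, iso, b1, b2, v1, v2⟩ := h
  obtain ⟨c1, w1⟩ := hVQI hSCA k I κ b1
  obtain ⟨c2, w2⟩ := hVPI k J τ b2
  refine ⟨Bool × I, Bool ⊕ J, inferInstance, inferInstance, inferInstance, ki κ, ti τ,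
    hISOI k I J κ τ iso, c1, c2, ?_, ?_⟩
  · have e : ((k + 1 + 1).factorial : ℝ) = ((k + 1).factorial : ℝ) * ((k : ℝ) + 2) := by
      rw [Nat.factorial_succ (k + 1)]
      push_cast
      ring
    rw [e, ENNReal.ofReal_mul (by positivity), mul_assoc]
    calc _ ≤ ENNReal.ofReal ((k + 1).factorial : ℝ) * (ENNReal.ofReal 2 * volume (QS κ 1)) :=
          mul_le_mul' le_rfl w1
      _ = ENNReal.ofReal 2 * (ENNReal.ofReal ((k + 1).factorial : ℝ) * volume (QS κ 1)) := by ring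
      _ ≤ ENNReal.ofReal 2 * ENNReal.ofReal a := mul_le_mul' le_rfl v1
      _ = ENNReal.ofReal (2 * a) := by rw [← ENNReal.ofReal_mul (by norm_num)]
  · refine w2.trans ((mul_le_mul' le_rfl v2).trans ?_)
    rw [← ENNReal.ofReal_mul (by positivity)]

lemma good_even (hISOB : S_ISOB) (hISOP : S_ISOP) (hSCA : S_SCA) (hVQP : S_VQP) (hVPP : S_VPP)
    (m : ℕ) : Good (2 * m) (2 * 5 ^ m) ((1 + 2 * psi) / 2 * (5 / 2 * psi ^ 2) ^ m) := by
  induction m with
  | zero => simpa using good_zero hISOB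
  | succ m ih =>
    have h := good_pent hISOP hSCA hVQP hVPP ih
    have e1 : 5 * (2 * 5 ^ m) = (2 * 5 ^ (m + 1) : ℝ) := by ring
    have e2 : 5 / 2 * psi ^ 2 * ((1 + 2 * psi) / 2 * (5 / 2 * psi ^ 2) ^ m) =
        (1 + 2 * psi) / 2 * (5 / 2 * psi ^ 2) ^ (m + 1) := by ring
    rw [e1, e2] at h
    exact h

lemma key_const (m : ℕ) : ((3 + Real.sqrt 5) / 5) ^ m * (5 ^ m * (5 / 2 * psi ^ 2) ^ m) =
    5 ^ m := by
  rw [← mul_pow, ← mul_pow]
  congr 1
  rw [psi_sq, sqrt5_eq]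
  have := psi_mul_self
  nlinarith

lemma sq_five : (1 + 2 * psi) ^ 2 = 5 := by
  have := psi_mul_self
  nlinarith

/-- the bodies -/
lemma good_all (hISOB : S_ISOB) (hISOP : S_ISOP) (hISOI : S_ISOI) (hSCA : S_SCA) (hVQP : S_VQP)
    (hVQI : S_VQI) (hVPP : S_VPP) (hVPI : S_VPI) (k : ℕ) :
    ∃ a b : ℝ, 0 < a ∧ 0 < b ∧ Good k a b ∧
      ((3 + Real.sqrt 5) / 5) ^ (k / 2) * (a * b) = (1 + 2 * psi) ^ (k + 1) := by
  have hp := psi_pos
  rcases Nat.even_or_odd' k with ⟨m, rfl | rfl⟩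
  · refine ⟨_, _, ?_, ?_, good_even hISOB hISOP hSCA hVQP hVPP m, ?_⟩
    · positivity
    · positivity
    · rw [show 2 * m / 2 = m by omega]
      have e : (1 + 2 * psi) ^ (2 * m + 1) = ((1 + 2 * psi) ^ 2) ^ m * (1 + 2 * psi) := by
        rw [← pow_mul, pow_succ]
      rw [e, sq_five]
      have := key_const m
      calc _ = (((3 + Real.sqrt 5) / 5) ^ m * (5 ^ m * (5 / 2 * psi ^ 2) ^ m)) *
            (1 + 2 * psi) := by ring
        _ = _ := by rw [this]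
  · have h := good_int hISOI hSCA hVQI hVPI (good_even hISOB hISOP hSCA hVQP hVPP m)
    refine ⟨_, _, ?_, ?_, h, ?_⟩
    · positivity
    · positivity
    · rw [show (2 * m + 1) / 2 = m by omega]
      have e : (1 + 2 * psi) ^ (2 * m + 1 + 1) = ((1 + 2 * psi) ^ 2) ^ m * (1 + 2 * psi) ^ 2 := by
        rw [← pow_mul, ← pow_add]
      rw [e, sq_five]
      have := key_const m
      calc _ = (((3 + Real.sqrt 5) / 5) ^ m * (5 ^ m * (5 / 2 * psi ^ 2) ^ m)) *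
            (1 + 2 * psi) ^ 2 := by ring
        _ = _ := by rw [this, sq_five]

theorem main (hISOB : S_ISOB) (hISOP : S_ISOP) (hISOI : S_ISOI) (hSCA : S_SCA) (hVQP : S_VQP)
    (hVQI : S_VQI) (hVPP : S_VPP) (hVPI : S_VPI) (k : ℕ) :
    ∃ D : Set (Phase (k + 1)),
      IsCompact D ∧ Convex ℝ D ∧ (interior D).Nonempty ∧ (interior D ∩ hyper k).Nonempty ∧
      ENNReal.ofReal (((3 + Real.sqrt 5) / 5) ^ (k / 2)) * (((k + 1).factorial : ℝ≥0∞) *
        min (volume (D ∩ {x | 0 ≤ x.2 (Fin.last k)})) (volume (D ∩ {x | x.2 (Fin.last k) ≤ 0}))) ≤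
        cLR D ^ (k + 1) ∧
      (2 ≤ k → (((k + 1).factorial : ℝ≥0∞) * min (volume (D ∩ {x | 0 ≤ x.2 (Fin.last k)}))
        (volume (D ∩ {x | x.2 (Fin.last k) ≤ 0}))) ^ (1 / ((k : ℝ) + 1)) < cLR D) := by
  have hp := psi_pos
  have hc : 0 < 1 + 2 * psi := by linarith
  obtain ⟨a, b, ha, hb, ⟨I, J, hI, hJ, hI0, κ, τ, iso, b1, b2, v1, v2⟩, hab⟩ :=
    good_all hISOB hISOP hISOI hSCA hVQP hVQI hVPP hVPI k
  have hprod : body κ τ = QS κ 1 ×ˢ QS τ 1 := by
    ext x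
    rfl
  have hcomp : IsCompact (body κ τ) := by
    refine Metric.isCompact_of_isClosed_isBounded (isClosed_body κ τ) ?_
    rw [hprod]
    exact b1.prod b2
  have hlow := le_cLR κ τ hcomp hc iso
  set X : ℝ≥0∞ := ((k + 1).factorial : ℝ≥0∞) * min (volume (body κ τ ∩ {x | 0 ≤ x.2 (Fin.last k)}))
        (volume (body κ τ ∩ {x | x.2 (Fin.last k) ≤ 0})) with hX
  have hXab : X ≤ ENNReal.ofReal (a * b) := by
    have hsub : body κ τ ∩ {x : Phase (k + 1) | 0 ≤ x.2 (Fin.last k)} ⊆ QS κ 1 ×ˢ PS τ := by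
      rintro x ⟨hx, hx2⟩
      exact ⟨hx.1, hx.2, hx2⟩
    calc X ≤ ENNReal.ofReal ((k + 1).factorial : ℝ) * (volume (QS κ 1) * volume (PS τ)) := by
          refine mul_le_mul' ?_ ((min_le_left _ _).trans ((measure_mono hsub).trans ?_))
          · rw [ENNReal.ofReal_natCast]
          · rw [Measure.volume_eq_prod, Measure.prod_prod]
      _ = (ENNReal.ofReal ((k + 1).factorial : ℝ) * volume (QS κ 1)) * volume (PS τ) := by
          rw [mul_assoc]
      _ ≤ ENNReal.ofReal a * ENNReal.ofReal b := mul_le_mul' v1 v2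
      _ = ENNReal.ofReal (a * b) := by rw [ENNReal.ofReal_mul ha.le]
  have hmain : ENNReal.ofReal (((3 + Real.sqrt 5) / 5) ^ (k / 2)) * X ≤
      cLR (body κ τ) ^ (k + 1) := by
    calc _ ≤ ENNReal.ofReal (((3 + Real.sqrt 5) / 5) ^ (k / 2)) * ENNReal.ofReal (a * b) :=
          mul_le_mul' le_rfl hXab
      _ = ENNReal.ofReal ((1 + 2 * psi) ^ (k + 1)) := by
          rw [← ENNReal.ofReal_mul (by positivity), hab]
      _ = ENNReal.ofReal (1 + 2 * psi) ^ (k + 1) := by rw [ENNReal.ofReal_pow hc.le]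
      _ ≤ _ := pow_le_pow_left' hlow (k + 1)
  refine ⟨body κ τ, hcomp, convex_body _ _, ⟨0, zero_mem_interior _ _⟩,
    ⟨0, zero_mem_interior _ _, by simp [hyper]⟩, hmain, fun hk => ?_⟩
  have hcpos : 0 < cLR (body κ τ) := lt_of_lt_of_le (ENNReal.ofReal_pos.2 hc) hlow
  have hk1 : (0 : ℝ) < (k : ℝ) + 1 := by positivity
  have hexp : (0 : ℝ) < 1 / ((k : ℝ) + 1) := by positivity
  change X ^ (1 / ((k : ℝ) + 1)) < cLR (body κ τ)
  by_cases hX0 : X = 0
  · rw [hX0, ENNReal.zero_rpow_of_pos hexp]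
    exact hcpos
  · have hXt : X ≠ ∞ := ne_top_of_le_ne_top ENNReal.ofReal_ne_top hXab
    have hf : (1 : ℝ≥0∞) < ENNReal.ofReal (((3 + Real.sqrt 5) / 5) ^ (k / 2)) := by
      rw [← ENNReal.ofReal_one, ENNReal.ofReal_lt_ofReal_iff (by positivity)]
      have h5 : 2 < Real.sqrt 5 := by
        rw [Real.lt_sqrt (by norm_num)]
        norm_num
      exact one_lt_pow₀ (by linarith) (by omega)
    have h1 : X < cLR (body κ τ) ^ (k + 1) := by
      refine lt_of_lt_of_le ?_ hmain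
      calc X = 1 * X := (one_mul _).symm
        _ < _ := ENNReal.mul_lt_mul_left hX0 hXt hf
    calc _ < (cLR (body κ τ) ^ (k + 1)) ^ (1 / ((k : ℝ) + 1)) := ENNReal.rpow_lt_rpow h1 hexp
      _ = cLR (body κ τ) := by
          rw [← ENNReal.rpow_natCast, ← ENNReal.rpow_mul]
          have : ((k + 1 : ℕ) : ℝ) * (1 / ((k : ℝ) + 1)) = 1 := by
            push_cast
            field_simp
          rw [this, ENNReal.rpow_one]

/-- For every `n = k + 1 ≥ 1` there is a convex body `D` in `ℝ²ⁿ` whose interior meets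
`{p_n = 0}` and for which `((3 + √5)/5) ^ ⌊(n-1)/2⌋ n! min {Vol(D⁺), Vol(D⁻)} ≤ c_LR(D) ^ n`;
for `n ≥ 3` in particular `c_LR(D) > (n! min {Vol(D⁺), Vol(D⁻)})^{1/n}`. -/
theorem result (k : ℕ) : ∃ D : Set (Phase (k + 1)),
    IsCompact D ∧ Convex ℝ D ∧ (interior D).Nonempty ∧ (interior D ∩ hyper k).Nonempty ∧
    ENNReal.ofReal (((3 + Real.sqrt 5) / 5) ^ (k / 2)) * (((k + 1).factorial : ℝ≥0∞) *
      min (volume (D ∩ {x | 0 ≤ x.2 (Fin.last k)})) (volume (D ∩ {x | x.2 (Fin.last k) ≤ 0}))) ≤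
      cLR D ^ (k + 1) ∧
    (2 ≤ k → (((k + 1).factorial : ℝ≥0∞) * min (volume (D ∩ {x | 0 ≤ x.2 (Fin.last k)}))
      (volume (D ∩ {x | x.2 (Fin.last k) ≤ 0}))) ^ (1 / ((k : ℝ) + 1)) < cLR D) :=
  main Pool.Agent.Y761.Coi.thm Pool.Agent.Y888.Coi.thm Pool.Agent.Y210.Coi.thm
    Pool.Agent.Y929.Coi.thm Pool.Agent.Y38.Coi.thm Pool.Agent.Y693.Coi.thm
    Pool.Agent.Y689.Coi.thm Pool.Agent.Y217.Coi.thm k

end Pool.Agent.Results.MP_4c83b4_gt.AllDimensions
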